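import Pool.Agent.Helper38.MC.ADefs

/-!
# Model counts for all arities, block P5: homogeneous families of translates
-/

set_option autoImplicit false

namespace Pool.Agent.Helper31.MC

open FirstOrder Pool.Agent.Helper20.Spectra Pool.Agent.Helper58.QD
open Pool.Agent.Helper31.QD Pool.Agent.Helper40.MC Pool.Agent.Helper38.MC

/-- `n` disjoint translates of `A \ F` -/
theorem translates {V : Type} [Fintype V] (G : Subgroup (Equiv.Perm V)) (T k q : ℕ) (F A : Finset V)
    (hFA : F ⊆ A) (x₀ : V) (hx₀ : x₀ ∈ A) (hx₀' : x₀ ∉ F) (hk : A.card ≤ F.card + k) (hF : Closed G T F)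
    (hh : ∀ h ∈ G, (∀ x ∈ F, h x = x) → (∀ x ∈ A, h x ∈ A) ∨ ∀ x ∈ A, h x ∈ A → x ∈ F)
    (hq : q * k ≤ T) : ∀ n ≤ q, ∃ h : Fin n → Equiv.Perm V, (∀ i, h i ∈ G) ∧ (∀ i, ∀ x ∈ F, h i x = x) ∧
      ∀ i j, i ≠ j → ∀ x ∈ A, x ∉ F → ∀ y ∈ A, y ∉ F → h i x ≠ h j y := by
  classical
  intro n
  induction n with
  | zero => exact fun _ => ⟨fun i => i.elim0, fun i => i.elim0, fun i => i.elim0, fun i => i.elim0⟩
  | succ n ih =>
    intro hn
    obtain ⟨h, hG, hfix, hdis⟩ := ih (by omega)
    -- the union of the translates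
    let U : Finset V := Finset.univ.biUnion fun i => (A \ F).image (h i)
    have hZ : (A \ F).card ≤ k := by
      have := Finset.card_sdiff_add_card_eq_card hFA
      omega
    have hU : U.card ≤ T := by
      refine (Finset.card_biUnion_le).trans ?_
      refine (Finset.sum_le_sum fun i _ => Finset.card_image_le.trans hZ).trans ?_
      simp only [Finset.sum_const, Finset.card_univ, Fintype.card_fin, smul_eq_mul]
      exact (Nat.mul_le_mul_right k (by omega)).trans hq
    obtain ⟨y, hy, hyU⟩ := Finset.exists_mem_notMem_of_card_lt_card (hU.trans_lt (hF x₀ hx₀'))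
    obtain ⟨g, hg, hgy⟩ : ∃ σ ∈ (G ⊓ fixP (F : Set V) : Subgroup (Equiv.Perm V)), σ x₀ = y := by
      simpa [orb] using hy
    have hgG : g ∈ G := (Subgroup.mem_inf.1 hg).1
    have hgF : ∀ x ∈ F, g x = x := fun x hx => (Subgroup.mem_inf.1 hg).2 x (by exact_mod_cast hx)
    -- `g` moves everything away
    have key : ∀ j, ∀ x ∈ A, x ∉ F → ∀ y ∈ A, y ∉ F → g x ≠ h j y := by
      intro j x hx hxF y' hy' hyF' he
      have hG' : (h j)⁻¹ * g ∈ G := G.mul_mem (G.inv_mem (hG j)) hgG
      have hinv : ∀ z w, h j z = w → (h j)⁻¹ w = z := fun z w e => by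
        rw [Equiv.Perm.inv_eq_iff_eq]
        exact e.symm
      have hfix' : ∀ x ∈ F, ((h j)⁻¹ * g) x = x := by
        intro x hx
        rw [Equiv.Perm.mul_apply, hgF x hx]
        exact hinv _ _ (hfix j x hx)
      rcases hh _ hG' hfix' with h1 | h1
      · have h2 := h1 x₀ hx₀
        have h3 : ((h j)⁻¹ * g) x₀ ∉ F := by
          intro h4
          have h5 := hfix' _ h4
          exact hx₀' (((h j)⁻¹ * g).injective h5 ▸ h4)
        apply hyU
        rw [← hgy]
        refine Finset.mem_biUnion.2 ⟨j, Finset.mem_univ _, Finset.mem_image.2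
          ⟨((h j)⁻¹ * g) x₀, Finset.mem_sdiff.2 ⟨h2, h3⟩, ?_⟩⟩
        rw [Equiv.Perm.mul_apply]
        exact (Equiv.Perm.inv_eq_iff_eq.1 rfl).symm
      · apply hxF
        apply h1 x hx
        rw [Equiv.Perm.mul_apply, hinv _ _ he.symm]
        exact hy'
    refine ⟨Fin.snoc h g, ?_, ?_, ?_⟩
    · intro i
      refine Fin.lastCases ?_ (fun i => ?_) i
      · rw [Fin.snoc_last]; exact hgG
      · rw [Fin.snoc_castSucc]; exact hG i
    · intro i
      refine Fin.lastCases ?_ (fun i => ?_) i
      · rw [Fin.snoc_last]; exact hgF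
      · rw [Fin.snoc_castSucc]; exact hfix i
    · intro i j
      refine Fin.lastCases ?_ (fun i => ?_) i
      · refine Fin.lastCases ?_ (fun j => ?_) j
        · intro h1; exact absurd rfl h1
        · intro _ x hx hxF y hy hyF
          rw [Fin.snoc_last, Fin.snoc_castSucc]
          exact key j x hx hxF y hy hyF
      · refine Fin.lastCases ?_ (fun j => ?_) j
        · intro _ x hx hxF y hy hyF
          rw [Fin.snoc_last, Fin.snoc_castSucc]
          exact (key i y hy hyF x hx hxF).symm
        · intro hij x hx hxF y hy hyF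
          rw [Fin.snoc_castSucc, Fin.snoc_castSucc]
          exact hdis i j (fun h => hij (by rw [h])) x hx hxF y hy hyF

section mv
variable {V : Type} {q t : ℕ} (u : Fin q × Fin t → V)

open Classical in
/-- moving blocks -/
noncomputable def mv (f : Fin q → Fin q) (x : V) : V :=
  if h : ∃ p, u p = x then u (f h.choose.1, h.choose.2) else x

theorem mv_in (hu : Function.Injective u) (f : Fin q → Fin q) (b : Fin q) (a : Fin t) :
    mv u f (u (b, a)) = u (f b, a) := by
  have h : ∃ p, u p = u (b, a) := ⟨_, rfl⟩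
  have h1 : h.choose = (b, a) := hu h.choose_spec
  unfold mv
  rw [dif_pos h, h1]

theorem mv_out (f : Fin q → Fin q) (x : V) (hx : ∀ p, u p ≠ x) : mv u f x = x := by
  unfold mv
  rw [dif_neg]
  rintro ⟨p, hp⟩
  exact hx p hp

end mv

open Classical in
/-- the exchange of two blocks -/
theorem au_block {S : Type} {ar : S → ℕ} {V : Type} (R : Interp S ar V) (r q t : ℕ) (har : ∀ s, ar s ≤ r)
    (hq : r + 3 ≤ q) (u : Fin q × Fin t → V) (hu : Function.Injective u)
    (hmv : ∀ (i j : Fin q), i ≠ j → ∀ (s : S) (v : Fin (ar s) → V), (∀ m a, v m ≠ u (j, a)) →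
      (R s (mv u (Function.update id i j) ∘ v) ↔ R s v)) (i j : Fin q) (hij : i ≠ j) (σ : Equiv.Perm V)
    (hσ : ∀ b x, σ (u (b, x)) = u (Equiv.swap i j b, x)) (hσ' : ∀ z, (∀ p, u p ≠ z) → σ z = z) : Au R σ := by
  intro s v
  -- a spare block
  obtain ⟨l, hl⟩ : ∃ l : Fin q, l ∉ insert i (insert j (Finset.univ.biUnion fun m : Fin (ar s) =>
      if h : ∃ p, u p = v m then {h.choose.1} else ∅)) := by
    by_contra hne
    push Not at hne
    have h1 : Finset.univ ⊆ insert i (insert j (Finset.univ.biUnion fun m : Fin (ar s) =>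
      if h : ∃ p, u p = v m then {h.choose.1} else ∅)) := fun l _ => hne l
    have h2 := Finset.card_le_card h1
    have h3 : (Finset.univ.biUnion fun m : Fin (ar s) =>
      if h : ∃ p, u p = v m then ({h.choose.1} : Finset (Fin q)) else ∅).card ≤ ar s := by
      refine Finset.card_biUnion_le.trans ?_
      refine (Finset.sum_le_sum (g := fun _ => 1) fun m _ => ?_).trans (by simp)
      split_ifs
      · simp
      · simp
    have h4 := Finset.card_insert_le i (insert j (Finset.univ.biUnion fun m : Fin (ar s) =>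
      if h : ∃ p, u p = v m then ({h.choose.1} : Finset (Fin q)) else ∅))
    have h5 := Finset.card_insert_le j (Finset.univ.biUnion fun m : Fin (ar s) =>
      if h : ∃ p, u p = v m then ({h.choose.1} : Finset (Fin q)) else ∅)
    rw [Finset.card_univ, Fintype.card_fin] at h2
    have h6 := har s
    omega
  rw [Finset.mem_insert, Finset.mem_insert, not_or, not_or] at hl
  obtain ⟨hli, hlj, hl⟩ := hl
  have hlv : ∀ m a, v m ≠ u (l, a) := by
    intro m a h
    apply hl
    refine Finset.mem_biUnion.2 ⟨m, Finset.mem_univ _, ?_⟩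
    have h1 : ∃ p, u p = v m := ⟨_, h.symm⟩
    rw [dif_pos h1, Finset.mem_singleton]
    have h2 : h1.choose = (l, a) := hu (h1.choose_spec.trans h)
    rw [h2]
  -- coordinates
  have hco : ∀ m, (∃ b a, b ≠ l ∧ v m = u (b, a)) ∨ ∀ p, u p ≠ v m := by
    intro m
    by_cases h : ∃ p, u p = v m
    · obtain ⟨⟨b, a⟩, hp⟩ := h
      refine Or.inl ⟨b, a, ?_, hp.symm⟩
      rintro rfl
      exact hlv m a hp.symm
    · push Not at h
      exact Or.inr h
  have e1 := hmv i l (fun h => hli h.symm) s v hlv
  have e2 := hmv j i (fun h => hij h.symm) s (mv u (Function.update id i l) ∘ v) (by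
    intro m a h
    rw [Function.comp_apply] at h
    rcases hco m with ⟨b, c, hb, hv⟩ | hv
    · rw [hv, mv_in u hu] at h
      have h1 := congrArg Prod.fst (hu h)
      simp only at h1
      by_cases hbi : b = i
      · subst hbi
        rw [Function.update_self] at h1
        exact hli h1
      · rw [Function.update_of_ne hbi] at h1
        exact hbi h1
    · rw [mv_out u _ _ hv] at h
      exact hv _ h.symm)
  have e3 := hmv l j hlj s (mv u (Function.update id j i) ∘ (mv u (Function.update id i l) ∘ v)) (by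
    intro m a h
    rw [Function.comp_apply, Function.comp_apply] at h
    rcases hco m with ⟨b, c, hb, hv⟩ | hv
    · rw [hv, mv_in u hu, mv_in u hu] at h
      have h1 := congrArg Prod.fst (hu h)
      simp only at h1
      by_cases hbi : b = i
      · subst hbi
        rw [Function.update_self, Function.update_of_ne hlj] at h1
        exact hlj h1
      · rw [Function.update_of_ne hbi] at h1
        by_cases hbj : b = j
        · subst hbj
          simp only [id] at h1
          rw [Function.update_self] at h1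
          exact hij h1
        · simp only [id] at h1
          rw [Function.update_of_ne hbj] at h1
          exact hbj h1
    · rw [mv_out u _ _ hv, mv_out u _ _ hv] at h
      exact hv _ h.symm)
  have e4 : σ ∘ v = mv u (Function.update id l j) ∘ (mv u (Function.update id j i) ∘
      (mv u (Function.update id i l) ∘ v)) := by
    funext m
    simp only [Function.comp_apply]
    rcases hco m with ⟨b, c, hb, hv⟩ | hv
    · rw [hv, hσ, mv_in u hu, mv_in u hu, mv_in u hu]
      congr 2
      by_cases hbi : b = i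
      · subst hbi
        rw [Equiv.swap_apply_left, Function.update_self, Function.update_of_ne hlj]
        simp only [id]
        rw [Function.update_self]
      · rw [Function.update_of_ne hbi]
        simp only [id]
        by_cases hbj : b = j
        · subst hbj
          rw [Equiv.swap_apply_right, Function.update_self, Function.update_of_ne (fun h => hli h.symm)]
          rfl
        · rw [Function.update_of_ne hbj, Equiv.swap_apply_of_ne_of_ne hbi hbj]
          simp only [id]
          rw [Function.update_of_ne hb]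
          rfl
    · rw [hσ' _ hv, mv_out u _ _ hv, mv_out u _ _ hv, mv_out u _ _ hv]
  rw [e4]
  exact e3.trans (e2.trans e1)

/-- all permutations of the blocks -/
theorem au_perm {S : Type} {ar : S → ℕ} {V : Type} (R : Interp S ar V) {q t : ℕ}
    (u : Fin q × Fin t → V) (hu : Function.Injective u)
    (hsw : ∀ i j : Fin q, i ≠ j → ∀ σ : Equiv.Perm V, (∀ b x, σ (u (b, x)) = u (Equiv.swap i j b, x)) →
      (∀ z, (∀ p, u p ≠ z) → σ z = z) → Au R σ) (π : Equiv.Perm (Fin q)) :
    ∀ σ : Equiv.Perm V, (∀ b x, σ (u (b, x)) = u (π b, x)) → (∀ z, (∀ p, u p ≠ z) → σ z = z) → Au R σ := by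
  classical
  induction π using Equiv.Perm.swap_induction_on with
  | one =>
    intro σ h1 h2
    have : σ = 1 := by
      ext x
      by_cases h : ∃ p, u p = x
      · obtain ⟨⟨b, a⟩, rfl⟩ := h
        rw [h1]
        rfl
      · push Not at h
        rw [h2 x h]
        rfl
    rw [this]
    exact fun _ _ => Iff.rfl
  | swap_mul f i j hij ih =>
    intro σ h1 h2
    let τ : Equiv.Perm V := Equiv.Perm.viaEmbedding ((Equiv.swap i j).prodCongr (Equiv.refl (Fin t))) ⟨u, hu⟩
    have t1 : ∀ b x, τ (u (b, x)) = u (Equiv.swap i j b, x) := fun b x =>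
      Equiv.Perm.viaEmbedding_apply _ ⟨u, hu⟩ (b, x)
    have t2 : ∀ z, (∀ p, u p ≠ z) → τ z = z := fun z hz =>
      Equiv.Perm.viaEmbedding_apply_of_notMem _ ⟨u, hu⟩ z (by
        rintro ⟨p, hp⟩
        exact hz p hp)
    have hτ := hsw i j hij τ t1 t2
    have hρ := ih (τ * σ) (by
      intro b x
      rw [Equiv.Perm.mul_apply, h1, t1, Equiv.Perm.mul_apply, Equiv.swap_apply_self]) (by
      intro z hz
      rw [Equiv.Perm.mul_apply, h2 z hz, t2 z hz])
    have hττ : τ * τ = 1 := by
      ext x
      rw [Equiv.Perm.mul_apply]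
      by_cases h : ∃ p, u p = x
      · obtain ⟨⟨b, a⟩, rfl⟩ := h
        rw [t1, t1, Equiv.swap_apply_self]
        rfl
      · push Not at h
        rw [t2 x h, t2 x h]
        rfl
    have : σ = τ * (τ * σ) := by rw [← mul_assoc, hττ, one_mul]
    rw [this]
    exact hτ.mul hρ

/-- P5 -/
theorem p5 (h3 : StmtP3) (h4 : StmtP4) : StmtP5 := by
  classical
  intro V _ S ar R r k l T q P har hP hq hT hqk hT1
  rcases h3 V (AuG R) P T k hT1 with h | ⟨F, A, hPF, hFA, hAk, hF, hA, hh⟩
  · exact Or.inl h
  right
  have hFA' : F ⊆ A := hFA.1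
  obtain ⟨x₀, hx₀, hx₀'⟩ := Finset.exists_of_ssubset hFA
  have hcard := Finset.card_sdiff_add_card_eq_card hFA'
  set Z : Finset V := A \ F with hZ
  have hZ1 : 1 ≤ Z.card := Finset.card_pos.2 ⟨x₀, Finset.mem_sdiff.2 ⟨hx₀, hx₀'⟩⟩
  have hZk : Z.card ≤ k := by omega
  obtain ⟨h, hG, hfix, hdis⟩ := translates (AuG R) T k q F A hFA' x₀ hx₀ hx₀' hAk hF hh hqk q le_rfl
  let z : Fin Z.card → V := fun a => (Z.equivFin.symm a : V)
  have hz : Function.Injective z := fun a b hab => Z.equivFin.symm.injective (Subtype.ext hab)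
  have hzZ : ∀ a, z a ∈ Z := fun a => (Z.equivFin.symm a).2
  have hzA : ∀ a, z a ∈ A := fun a => (Finset.mem_sdiff.1 (hzZ a)).1
  have hzF : ∀ a, z a ∉ F := fun a => (Finset.mem_sdiff.1 (hzZ a)).2
  have hzs : ∀ x ∈ Z, ∃ a, z a = x := fun x hx => ⟨Z.equivFin ⟨x, hx⟩, by simp [z]⟩
  let u₀ : Fin k → V := fun b => if hb : (b : ℕ) < Z.card then z ⟨b, hb⟩ else z ⟨0, hZ1⟩
  have hu₀ : ∀ b, ∃ a, u₀ b = z a := by
    intro b
    by_cases hb : (b : ℕ) < Z.card
    · exact ⟨⟨b, hb⟩, dif_pos hb⟩
    · exact ⟨⟨0, hZ1⟩, dif_neg hb⟩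
  have hu₁ : ∀ a : Fin Z.card, u₀ (Fin.castLE hZk a) = z a := by
    intro a
    have : ((Fin.castLE hZk a : Fin k) : ℕ) < Z.card := a.2
    exact dif_pos this
  let u : Fin q × Fin Z.card → V := fun p => h p.1 (z p.2)
  have hu : Function.Injective u := by
    rintro ⟨i, a⟩ ⟨j, b⟩ hij
    by_cases h1 : i = j
    · subst h1
      have h2 : z a = z b := (h i).injective hij
      rw [hz h2]
    · exact absurd hij (hdis i j h1 _ (hzA a) (hzF a) _ (hzA b) (hzF b))
  have hmv : ∀ (i j : Fin q), i ≠ j → ∀ (s : S) (v : Fin (ar s) → V), (∀ m a, v m ≠ u (j, a)) →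
      (R s (mv u (Function.update id i j) ∘ v) ↔ R s v) := by
    intro i j hij s v hv
    let p : Fin (ar s) → V ⊕ Fin k := fun m =>
      if hm : ∃ a, u (i, a) = v m then Sum.inr (Fin.castLE hZk hm.choose) else Sum.inl (v m)
    have e1 : ev (h i ∘ u₀) p = v := by
      funext m
      show Sum.elim id (h i ∘ u₀) (p m) = v m
      by_cases hm : ∃ a, u (i, a) = v m
      · have : p m = Sum.inr (Fin.castLE hZk hm.choose) := dif_pos hm
        rw [this, Sum.elim_inr, Function.comp_apply, hu₁]
        exact hm.choose_spec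
      · have : p m = Sum.inl (v m) := dif_neg hm
        rw [this]
        rfl
    have e2 : ev (h j ∘ u₀) p = mv u (Function.update id i j) ∘ v := by
      funext m
      show Sum.elim id (h j ∘ u₀) (p m) = mv u (Function.update id i j) (v m)
      by_cases hm : ∃ a, u (i, a) = v m
      · have : p m = Sum.inr (Fin.castLE hZk hm.choose) := dif_pos hm
        rw [this, Sum.elim_inr, Function.comp_apply, hu₁]
        have h1 := hm.choose_spec
        have h9 := mv_in u hu (Function.update id i j) i hm.choose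
        rw [h1, Function.update_self] at h9
        exact h9.symm
      · have : p m = Sum.inl (v m) := dif_neg hm
        rw [this, Sum.elim_inl, id]
        by_cases hm' : ∃ p, u p = v m
        · obtain ⟨⟨b, a⟩, hp⟩ := hm'
          have hb : b ≠ i := by
            rintro rfl
            exact hm ⟨a, hp⟩
          rw [← hp, mv_in u hu, Function.update_of_ne hb]
          rfl
        · push Not at hm'
          rw [mv_out u _ _ hm']
    have h5 := h4 V S ar R r k l T P F A u₀ har hP hPF hFA' hA hT (by
      intro x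
      constructor
      · intro hx
        by_cases hxF : x ∈ F
        · exact Or.inl hxF
        · obtain ⟨a, ha⟩ := hzs x (Finset.mem_sdiff.2 ⟨hx, hxF⟩)
          exact Or.inr ⟨Fin.castLE hZk a, (hu₁ a).trans ha⟩
      · rintro (hx | ⟨b, hb⟩)
        · exact hFA' hx
        · obtain ⟨a, ha⟩ := hu₀ b
          rw [← hb, ha]
          exact hzA a) (h i) (hG i) (h j) (hG j) (hfix i) (hfix j) s p (by
      intro w hw b _
      have hw' : ∃ m, p m = Sum.inl w := by simpa [out] using hw
      obtain ⟨m, hm⟩ := hw'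
      by_cases hm' : ∃ a, u (i, a) = v m
      · have : p m = Sum.inr (Fin.castLE hZk hm'.choose) := dif_pos hm'
        rw [this] at hm
        exact absurd hm (by simp)
      · have h6 : p m = Sum.inl (v m) := dif_neg hm'
        rw [h6] at hm
        have h7 : v m = w := Sum.inl.inj hm
        obtain ⟨a, ha⟩ := hu₀ b
        rw [ha]
        constructor
        · intro h8
          exact hm' ⟨a, h8.trans h7.symm⟩
        · intro h8
          exact hv m a (h7.trans h8.symm))
    rw [e1, e2] at h5
    exact h5.symm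
  refine ⟨Z.card, hZ1, hZk, u, hu, fun π σ h1 h2 => ?_⟩
  exact au_perm R u hu (fun i j hij σ h1 h2 => au_block R r q Z.card har hq u hu hmv i j hij σ h1 h2) π σ h1 h2

end Pool.Agent.Helper31.MC
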