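import Pool.Agent.Helper40.MC.Defs

/-!
# Unions of arithmetic progressions with bounded differences
-/

set_option autoImplicit false

namespace Pool.Agent.Helper31.MC

open Pool.Agent.Helper40.MC

theorem stmtAP : StmtAP := by
  classical
  intro k A
  constructor
  · rintro ⟨n₁, h⟩
    -- the good starting points
    let B : ℕ → ℕ → ℕ → Prop := fun t r n => n ∈ A ∧ n₁ ≤ n ∧ n % t = r ∧ ∀ j : ℕ, n + t * j ∈ A
    let m : ℕ → ℕ → ℕ := fun t r => if hex : ∃ n, B t r n then Nat.find hex else 0
    refine ⟨(Finset.range n₁).filter (fun n => n ∈ A),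
      ((Finset.Icc 1 k ×ˢ Finset.range k).filter (fun p => ∃ n, B p.1 p.2 n)).image (fun p => (m p.1 p.2, p.1)), ?_, ?_⟩
    · intro p hp
      obtain ⟨q, hq, rfl⟩ := Finset.mem_image.1 hp
      have h1 := (Finset.mem_filter.1 hq).1
      rw [Finset.mem_product, Finset.mem_Icc] at h1
      exact h1.1
    · ext n
      constructor
      · intro hn
        by_cases hlt : n < n₁
        · left
          rw [Finset.mem_filter, Finset.mem_range]
          exact ⟨hlt, hn⟩
        · right
          obtain ⟨t, ht1, ht2, ht3⟩ := h n hn (by omega)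
          have hB : B t (n % t) n := ⟨hn, by omega, rfl, ht3⟩
          have hex : ∃ n', B t (n % t) n' := ⟨n, hB⟩
          have hm : m t (n % t) = Nat.find hex := dif_pos hex
          have hspec := Nat.find_spec hex
          have hle := Nat.find_min' hex hB
          rw [← hm] at hspec hle
          refine ⟨(m t (n % t), t), ?_, ?_⟩
          · rw [Finset.mem_image]
            refine ⟨(t, n % t), ?_, rfl⟩
            rw [Finset.mem_filter, Finset.mem_product, Finset.mem_Icc, Finset.mem_range]
            have := Nat.mod_lt n (show 0 < t by omega)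
            exact ⟨⟨⟨ht1, ht2⟩, by show n % t < k; omega⟩, hex⟩
          · have h2 : m t (n % t) % t = n % t := hspec.2.2.1
            have h3 : t ∣ n - m t (n % t) := (Nat.modEq_iff_dvd' hle).1 h2
            obtain ⟨j, hj⟩ := h3
            exact ⟨j, by show n = m t (n % t) + t * j; omega⟩
      · rintro (hn | ⟨p, hp, j, rfl⟩)
        · exact (Finset.mem_filter.1 hn).2
        · obtain ⟨q, hq, rfl⟩ := Finset.mem_image.1 hp
          have hex := (Finset.mem_filter.1 hq).2
          have hm : m q.1 q.2 = Nat.find hex := dif_pos hex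
          have hspec := Nat.find_spec hex
          rw [← hm] at hspec
          exact hspec.2.2.2 j
  · rintro ⟨F, P, hP, rfl⟩
    refine ⟨F.sup id + 1, ?_⟩
    rintro n (hn | ⟨p, hp, j, rfl⟩) hle
    · have : n ≤ F.sup id := Finset.le_sup (f := id) hn
      omega
    · refine ⟨p.2, (hP p hp).1, (hP p hp).2, fun j' => Or.inr ⟨p, hp, j + j', ?_⟩⟩
      rw [Nat.mul_add]
      omega

end Pool.Agent.Helper31.MC
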