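import Pool.Agent.Helper31.QD.Shrink

/-!
# Structures built from interchangeable blocks
-/

set_option autoImplicit false

namespace Pool.Agent.Helper31.MC

open FirstOrder Pool.Agent.Helper20.Spectra Pool.Agent.Helper58.QD Pool.Agent.Helper31.QD

variable {S : Type} {ar : S → ℕ}

/-- the substructure induced along a map -/
def pull {M N : Type} (f : N → M) (R : Interp S ar M) : Interp S ar N := fun s t => R s (fun i => f (t i))

/-- a permutation of the indices of the blocks -/
def blk {P ι T : Type} (σ : Equiv.Perm ι) : Equiv.Perm (P ⊕ ι × T) :=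
  Equiv.sumCongr (Equiv.refl P) (Equiv.prodCongr σ (Equiv.refl T))

@[simp] theorem blk_inl {P ι T : Type} (σ : Equiv.Perm ι) (p : P) : (blk σ : Equiv.Perm (P ⊕ ι × T)) (Sum.inl p) = Sum.inl p := rfl

@[simp] theorem blk_inr {P ι T : Type} (σ : Equiv.Perm ι) (x : ι × T) :
    (blk σ : Equiv.Perm (P ⊕ ι × T)) (Sum.inr x) = Sum.inr (σ x.1, x.2) := rfl

theorem term_pull {M N : Type} (f : N → M) (R : Interp S ar M) {n : ℕ} (t : (RelLang S ar).Term (Empty ⊕ Fin n))
    (v : Empty → N) (xs : Fin n → N) :
    @Language.Term.realize _ M (mkS R) _ (Sum.elim (fun e => f (v e)) (fun i => f (xs i))) t =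
      f (@Language.Term.realize _ N (mkS (pull f R)) _ (Sum.elim v xs) t) := by
  cases t with
  | var x =>
    rcases x with x | x
    · exact x.elim
    · rfl
  | func f _ => exact Empty.elim f

/-- the index of the block of a point -/
def ix {P ι T : Type} : P ⊕ ι × T → Option ι
  | .inl _ => none
  | .inr x => some x.1

/-- formulas of small depth do not see the number of the blocks -/
theorem ef_blk {P ι κ T : Type} [DecidableEq ι] {R : Interp S ar (P ⊕ ι × T)} (hR : ∀ σ : Equiv.Perm ι, Au R (blk σ))
    (e : κ → ι) (he : Function.Injective e) [Fintype κ] {n : ℕ} (φ : (RelLang S ar).BoundedFormula Empty n) :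
    n + qd φ ≤ Fintype.card κ → ∀ (v : Empty → P ⊕ κ × T) (xs : Fin n → P ⊕ κ × T),
    (@Language.BoundedFormula.Realize _ (P ⊕ ι × T) (mkS R) _ _ φ (fun a => Sum.map id (Prod.map e id) (v a))
        (fun i => Sum.map id (Prod.map e id) (xs i)) ↔
      @Language.BoundedFormula.Realize _ (P ⊕ κ × T) (mkS (pull (Sum.map id (Prod.map e id)) R)) _ _ φ v xs) := by
  classical
  set F : P ⊕ κ × T → P ⊕ ι × T := Sum.map id (Prod.map e id) with hF
  have hFinj : Function.Injective F :=
    Sum.map_injective.2 ⟨Function.injective_id, he.prodMap Function.injective_id⟩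
  induction φ with
  | falsum => intro _ v xs; exact Iff.rfl
  | equal t u =>
    intro _ v xs
    have h1 := term_pull F R t v xs
    have h2 := term_pull F R u v xs
    show @Language.Term.realize _ (P ⊕ ι × T) (mkS R) _ (Sum.elim (fun e => F (v e)) (fun i => F (xs i))) t =
        @Language.Term.realize _ (P ⊕ ι × T) (mkS R) _ (Sum.elim (fun e => F (v e)) (fun i => F (xs i))) u ↔
      @Language.Term.realize _ (P ⊕ κ × T) (mkS (pull F R)) _ (Sum.elim v xs) t =
        @Language.Term.realize _ (P ⊕ κ × T) (mkS (pull F R)) _ (Sum.elim v xs) u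
    rw [h1, h2]
    exact hFinj.eq_iff
  | rel r ts =>
    intro _ v xs
    show R r.1 (fun i => @Language.Term.realize _ (P ⊕ ι × T) (mkS R) _ (Sum.elim (fun e => F (v e)) (fun i => F (xs i))) (ts (Fin.cast r.2 i))) ↔
      R r.1 (fun i => F (@Language.Term.realize _ (P ⊕ κ × T) (mkS (pull F R)) _ (Sum.elim v xs) (ts (Fin.cast r.2 i))))
    simp only [term_pull]
  | imp f g ihf ihg =>
    intro hn v xs
    have h1 : qd (f.imp g) = max (qd f) (qd g) := rfl
    rw [h1] at hn
    exact imp_congr (ihf (by omega) v xs) (ihg (by omega) v xs)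
  | @all n f ih =>
    intro hn v xs
    have h1 : qd f.all = qd f + 1 := rfl
    rw [h1] at hn
    have ih' := ih (by omega)
    have key : ∀ x : P ⊕ κ × T, (@Language.BoundedFormula.Realize _ (P ⊕ ι × T) (mkS R) _ _ f (fun e => F (v e))
        (Fin.snoc (fun i => F (xs i)) (F x)) ↔
        @Language.BoundedFormula.Realize _ (P ⊕ κ × T) (mkS (pull F R)) _ _ f v (Fin.snoc xs x)) := by
      intro x
      rw [← ih' v (Fin.snoc xs x)]
      have : (fun i => F ((Fin.snoc xs x : Fin (n + 1) → P ⊕ κ × T) i)) = Fin.snoc (fun i => F (xs i)) (F x) := by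
        funext i
        refine Fin.lastCases ?_ (fun j => ?_) i
        · simp
        · simp
      rw [this]
    show (∀ a : P ⊕ ι × T, @Language.BoundedFormula.Realize _ (P ⊕ ι × T) (mkS R) _ _ f (fun e => F (v e)) (Fin.snoc (fun i => F (xs i)) a)) ↔
      (∀ a : P ⊕ κ × T, @Language.BoundedFormula.Realize _ (P ⊕ κ × T) (mkS (pull F R)) _ _ f v (Fin.snoc xs a))
    constructor
    · intro h x
      exact (key x).1 (h (F x))
    · intro h x
      by_cases hx : x ∈ Set.range F
      · obtain ⟨y, rfl⟩ := hx
        exact (key y).2 (h y)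
      · -- the point lies in a block which is not an image
        rcases x with p | ⟨a, c⟩
        · exact absurd ⟨Sum.inl p, rfl⟩ hx
        have ha : ∀ k, e k ≠ a := by
          intro k hk
          apply hx
          refine ⟨Sum.inr (k, c), ?_⟩
          show Sum.inr (e k, c) = _
          rw [hk]
        -- an unused index
        have hex : ∃ k : κ, ∀ i, ix (xs i) ≠ some k := by
          by_contra hcon
          push Not at hcon
          choose g hg using hcon
          have hginj : Function.Injective g := by
            intro k l hkl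
            have h3 := hg k
            rw [hkl, hg l] at h3
            exact (Option.some.inj h3).symm
          have h4 := Fintype.card_le_of_injective g hginj
          rw [Fintype.card_fin] at h4
          omega
        obtain ⟨k, hk⟩ := hex
        have h4 := (key (Sum.inr (k, c))).2 (h (Sum.inr (k, c)))
        have h5 := (aut (blk (Equiv.swap a (e k))) (hR _) f (fun e => F (v e)) (Fin.snoc (fun i => F (xs i)) (F (Sum.inr (k, c))))).2 h4
        have h6 : (blk (Equiv.swap a (e k)) ∘ (Fin.snoc (fun i => F (xs i)) (F (Sum.inr (k, c))) : Fin (n + 1) → P ⊕ ι × T)) =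
            Fin.snoc (fun i => F (xs i)) (Sum.inr (a, c)) := by
          funext i
          refine Fin.lastCases ?_ (fun j => ?_) i
          · simp only [Function.comp_apply, Fin.snoc_last]
            show Sum.inr (Equiv.swap a (e k) (e k), c) = _
            rw [Equiv.swap_apply_right]
          · simp only [Function.comp_apply, Fin.snoc_castSucc]
            have hj := hk j
            rcases hxj : xs j with p | ⟨l, d⟩
            · rfl
            · rw [hxj] at hj
              show Sum.inr (Equiv.swap a (e k) (e l), d) = Sum.inr (e l, d)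
              rw [Equiv.swap_apply_of_ne_of_ne (ha l)]
              intro h7
              exact hj (congrArg some (he h7))
        rw [h6] at h5
        exact h5

end Pool.Agent.Helper31.MC
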